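import Pool.Agent.Helper47.HR.Defs

set_option autoImplicit false

namespace Pool.Agent.Helper47.HR

open Polynomial Matrix

/-- the functional of a row -/
noncomputable def rowFun {A : Type*} [CommRing A] (v : Fin 3 → A) : (Fin 3 → A) →ₗ[A] A where
  toFun u := ∑ i, v i * u i
  map_add' a b := by simp [mul_add, Finset.sum_add_distrib]
  map_smul' r a := by
    simp only [Pi.smul_apply, smul_eq_mul, RingHom.id_apply, Finset.mul_sum]
    exact Finset.sum_congr rfl (fun i _ => by ring)

/-- the kernel of a unimodular row is a complement of a line -/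
noncomputable def kerEquiv {A : Type*} [CommRing A] (v w : Fin 3 → A)
    (hv : ∑ i, v i * w i = 1) :
    (LinearMap.ker (rowFun v) × (Fin 1 → A)) ≃ₗ[A] (Fin 3 → A) where
  toFun p := (p.1 : Fin 3 → A) + p.2 0 • w
  map_add' p q := by
    simp only [Prod.fst_add, Submodule.coe_add, Prod.snd_add, Pi.add_apply, add_smul]
    abel
  map_smul' r p := by
    simp [smul_add, smul_smul]
  invFun u := (⟨u - rowFun v u • w, by
    have h : rowFun v w = 1 := hv
    rw [LinearMap.mem_ker, map_sub, map_smul, h, smul_eq_mul, mul_one, sub_self]⟩,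
    fun _ => rowFun v u)
  left_inv p := by
    have h : rowFun v w = 1 := hv
    have h1 : rowFun v (p.1 : Fin 3 → A) = 0 := p.1.2
    ext i
    · simp [h, h1]
    · have hi : i = 0 := Subsingleton.elim _ _
      subst hi
      simp [h, h1]
  right_inv u := by
    simp

theorem free_ker_completes {A : Type*} [CommRing A] [Nontrivial A] (v w : Fin 3 → A)
    (hv : ∑ i, v i * w i = 1) (hfree : Module.Free A (LinearMap.ker (rowFun v))) :
    ∃ σ : Matrix (Fin 3) (Fin 3) A, IsUnit σ.det ∧ ∀ j, σ 2 j = v j := by
  classical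
  let E := kerEquiv v w hv
  have hfin : Module.Finite A (LinearMap.ker (rowFun v) × (Fin 1 → A)) :=
    Module.Finite.equiv E.symm
  have hfin2 : Module.Finite A (LinearMap.ker (rowFun v)) :=
    Module.Finite.of_surjective (LinearMap.fst A (LinearMap.ker (rowFun v)) (Fin 1 → A))
      LinearMap.fst_surjective
  have hrank : Module.finrank A (LinearMap.ker (rowFun v)) = 2 := by
    have h1 := E.finrank_eq
    rw [Module.finrank_prod, Module.finrank_fin_fun, Module.finrank_fin_fun] at h1
    omega
  let b := Module.finBasisOfFinrankEq A (LinearMap.ker (rowFun v)) hrank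
  -- the linear equivalence
  let F : (Fin 3 → A) ≃ₗ[A] (Fin 3 → A) :=
    E.symm.trans ((LinearEquiv.prodCongr b.equivFun (LinearEquiv.refl A (Fin 1 → A))).trans
      ((LinearEquiv.sumArrowLequivProdArrow (Fin 2) (Fin 1) A A).symm.trans
        (LinearEquiv.funCongrLeft A A (finSumFinEquiv (m := 2) (n := 1)).symm)))
  have hF : ∀ u, F u 2 = rowFun v u := by
    intro u
    have h2 : (finSumFinEquiv (m := 2) (n := 1)).symm 2 = Sum.inr 0 := by decide
    have : F u 2 = ((LinearEquiv.sumArrowLequivProdArrow (Fin 2) (Fin 1) A A).symm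
      ((LinearEquiv.prodCongr b.equivFun (LinearEquiv.refl A (Fin 1 → A))) (E.symm u)))
        ((finSumFinEquiv (m := 2) (n := 1)).symm 2) := rfl
    rw [this, h2]
    rfl
  refine ⟨LinearMap.toMatrix' (F : (Fin 3 → A) →ₗ[A] (Fin 3 → A)), ?_, ?_⟩
  · rw [LinearMap.det_toMatrix']
    exact F.isUnit_det'
  · intro j
    rw [LinearMap.toMatrix'_apply]
    have h3 := hF (Pi.single j 1)
    have h4 : rowFun v (Pi.single j 1) = v j := by
      show ∑ i, v i * (Pi.single j (1 : A) : Fin 3 → A) i = v j
      rw [Finset.sum_eq_single j]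
      · simp
      · intro i _ hij
        simp [hij]
      · intro h
        exact absurd (Finset.mem_univ j) h
    rw [h4] at h3
    exact h3

/-- F1 -/
theorem local_row (h : HRC) (R : Type) [CommRing R] [IsLocalRing R] (v w : Fin 3 → R[X])
    (hv : ∑ i, v i * w i = 1) :
    ∃ σ : Matrix (Fin 3) (Fin 3) R[X], IsUnit σ.det ∧ ∀ j, σ 2 j = v j := by
  apply free_ker_completes v w hv
  refine h R ?_ (LinearMap.ker (rowFun v)) ⟨1, 3, ⟨kerEquiv v w hv⟩⟩
  intro M _ _ hM
  obtain ⟨n, m, ⟨e⟩⟩ := hM
  have hfin : Module.Finite R (M × (Fin n → R)) := Module.Finite.equiv e.symm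
  have hfin2 : Module.Finite R M :=
    Module.Finite.of_surjective (LinearMap.fst R M (Fin n → R)) LinearMap.fst_surjective
  have hproj : Module.Projective R (M × (Fin n → R)) := Module.Projective.of_equiv e.symm
  have hproj2 : Module.Projective R M :=
    Module.Projective.of_split (LinearMap.inl R M (Fin n → R))
      (LinearMap.fst R M (Fin n → R)) (by ext; simp)
  have hflat : Module.Flat R M := inferInstance
  exact Module.free_of_flat_of_isLocalRing

end Pool.Agent.Helper47.HR
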